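import Pool.Agent.WR2.StmtsA
import Pool.Agent.WR2.StmtsB

/-!
# WR2, row ERB: the errors of all blocks together
-/

set_option autoImplicit false

namespace Pool.Agent.WR2.H26

open Pool.Agent.WIR Pool.Agent.WR2
open scoped BigOperators

lemma erb_tj (q : ℕ) (hq : 1000 ≤ q) (i : ℕ) : i ≤ tj q i := by
  induction i with
  | zero => exact Nat.zero_le _
  | succ n ih =>
    have : tj q (n + 1) = tj q n + (tj q n + q) / 100 := rfl
    rw [this]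
    omega

lemma erb_tel (q : ℝ) (hq : 2 ≤ q) (J : ℕ) :
    ∑ i ∈ Finset.range J, 1 / (q + i) ^ 2 ≤ 1 / (q - 1) - 1 / (q + J - 1) := by
  induction J with
  | zero => simp
  | succ n ih =>
    rw [Finset.sum_range_succ]
    have hn : (0 : ℝ) ≤ (n : ℝ) := Nat.cast_nonneg n
    set x : ℝ := q + n with hx
    have hx2 : 2 ≤ x := by rw [hx]; linarith
    have h1 : 1 / x ^ 2 ≤ 1 / (x - 1) - 1 / x := by
      rw [div_sub_div _ _ (by linarith) (by linarith)]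
      rw [div_le_div_iff₀ (by positivity) (by nlinarith)]
      nlinarith
    have h2 : q + ((n + 1 : ℕ) : ℝ) - 1 = x := by push_cast; rw [hx]; ring
    rw [h2]
    linarith

lemma erb_sum (q : ℕ) (hq : 1000 ≤ q) (J : ℕ) :
    ∑ i ∈ Finset.range J, 1 / ((q : ℝ) + i) ^ 2 ≤ 2 / (q : ℝ) := by
  have hq' : (1000 : ℝ) ≤ q := by exact_mod_cast hq
  have h := erb_tel (q : ℝ) (by linarith) J
  have hJ : (0 : ℝ) ≤ (J : ℝ) := Nat.cast_nonneg J
  have h1 : 0 ≤ 1 / ((q : ℝ) + J - 1) := by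
    apply div_nonneg zero_le_one
    linarith
  have h2 : 1 / ((q : ℝ) - 1) ≤ 2 / (q : ℝ) := by
    rw [div_le_div_iff₀ (by linarith) (by linarith)]
    linarith
  linarith

lemma erb_exp (x : ℝ) (hx : 0 < x) : Real.exp (-x) ≤ 6 / x ^ 3 := by
  have h := Real.pow_div_factorial_le_exp x hx.le 3
  have h3 : (Nat.factorial 3 : ℝ) = 6 := by norm_num [Nat.factorial]
  rw [h3] at h
  have hx3 : 0 < x ^ 3 := by positivity
  rw [Real.exp_neg, inv_eq_one_div, div_le_div_iff₀ (Real.exp_pos x) hx3]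
  rw [div_le_iff₀ (by norm_num)] at h
  linarith

/-- one block -/
lemma erb_block (hBsm : BsmStmt) (C1 : ℝ) (hC1 : 1 ≤ C1)
    (hC : ∀ r r' s N : ℕ, r ≤ r' → r' ≤ N → (∀ l ∈ WS s, l + r' ≤ N) →
      Lv N (fun m => max 0 (wr r m - Tht s r' m)) ∧
      av N (fun m => max 0 (wr r m - Tht s r' m))
        ≤ C1 * (s + 1) / ((r : ℝ) + 1) ^ 4 + 2 * Real.exp (-((s : ℝ) / 2000000)))
    (q i : ℕ) (hq : 1000 ≤ q) :
    ∑ a ∈ Finset.Icc 1 (3 ^ q), Eb q i a ≤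
      2 * (C1 * 10 ^ 12 + 768 * 10 ^ 24) * 3 ^ q * (1 / ((q : ℝ) + i) ^ 2) := by
  have hti := erb_tj q hq i
  set t : ℕ := tj q i with ht
  obtain ⟨u, hu⟩ : ∃ u : ℕ, u = t + q := ⟨_, rfl⟩
  have hu1000 : 1000 ≤ u := by omega
  obtain ⟨s, hs⟩ : ∃ s : ℕ, s = u / 100 := ⟨_, rfl⟩
  obtain ⟨r, hr⟩ : ∃ r : ℕ, r = u / 1000 := ⟨_, rfl⟩
  obtain ⟨r', hr'⟩ : ∃ r' : ℕ, r' = (u + s) / 1000 := ⟨_, rfl⟩
  obtain ⟨N, hN⟩ : ∃ N : ℕ, N = u / 10 := ⟨_, rfl⟩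
  have hEb : ∀ a, Eb q i a = AO t (fun _ m => max 0 (wr r m - Tht s r' m)) a := by
    intro a
    have h1 : (tj q i + q) / 1000 = r := by rw [hr, hu]
    have h2 : (tj q i + q) / 100 = s := by rw [hs, hu]
    have h3 : (tj q (i + 1) + q) / 1000 = r' := by
      have : tj q (i + 1) = tj q i + (tj q i + q) / 100 := rfl
      rw [this, hr', hs, hu]
      congr 1
      omega
    unfold Eb
    rw [h1, h2, h3]
  obtain ⟨hLv, hav⟩ := hC r r' s N (by omega) (by omega) (by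
    intro l hl
    have hl2 := (Finset.mem_filter.mp hl).2.2
    omega)
  have huR : (1000 : ℝ) ≤ u := by exact_mod_cast hu1000
  have hupos : (0 : ℝ) < u := by linarith
  have hs1 : (s : ℝ) + 1 ≤ u := by
    have : s + 1 ≤ u := by omega
    exact_mod_cast this
  have hr1 : (u : ℝ) / 1000 ≤ (r : ℝ) + 1 := by
    have : u ≤ 1000 * (r + 1) := by omega
    have h : (u : ℝ) ≤ 1000 * ((r : ℝ) + 1) := by exact_mod_cast this
    linarith
  have hs2 : (u : ℝ) / 200 ≤ s := by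
    have : u ≤ 200 * s := by omega
    have h : (u : ℝ) ≤ 200 * (s : ℝ) := by exact_mod_cast this
    linarith
  have hC0 : 0 ≤ C1 := by linarith
  have hB1 : C1 * (s + 1) / ((r : ℝ) + 1) ^ 4 ≤ C1 * 10 ^ 12 / (u : ℝ) ^ 3 := by
    have h4 : ((u : ℝ) / 1000) ^ 4 ≤ ((r : ℝ) + 1) ^ 4 := by
      gcongr
    calc C1 * (s + 1) / ((r : ℝ) + 1) ^ 4 ≤ C1 * u / ((u : ℝ) / 1000) ^ 4 := by
          gcongr
      _ = C1 * 10 ^ 12 / (u : ℝ) ^ 3 := by
          field_simp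
          norm_num
  have hB2 : 2 * Real.exp (-((s : ℝ) / 2000000)) ≤ 768 * 10 ^ 24 / (u : ℝ) ^ 3 := by
    have hx : (u : ℝ) / 400000000 ≤ (s : ℝ) / 2000000 := by
      rw [div_le_div_iff₀ (by norm_num) (by norm_num)]
      linarith
    have h1 : Real.exp (-((s : ℝ) / 2000000)) ≤ Real.exp (-((u : ℝ) / 400000000)) := by
      apply Real.exp_le_exp.mpr
      linarith
    have h2 := erb_exp ((u : ℝ) / 400000000) (by positivity)
    have h3 : 6 / ((u : ℝ) / 400000000) ^ 3 = 384 * 10 ^ 24 / (u : ℝ) ^ 3 := by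
      field_simp
      norm_num
    rw [h3] at h2
    have h4 : 768 * 10 ^ 24 / (u : ℝ) ^ 3 = 2 * (384 * 10 ^ 24 / (u : ℝ) ^ 3) := by ring
    rw [h4]
    linarith
  set C' : ℝ := C1 * 10 ^ 12 + 768 * 10 ^ 24 with hC'
  have hC'0 : 0 ≤ C' := by positivity
  have hBle : av N (fun m => max 0 (wr r m - Tht s r' m)) ≤ C' / (u : ℝ) ^ 3 := by
    have : C' / (u : ℝ) ^ 3 = C1 * 10 ^ 12 / (u : ℝ) ^ 3 + 768 * 10 ^ 24 / (u : ℝ) ^ 3 := by
      rw [hC', add_div]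
    rw [this]
    linarith
  have hmain := hBsm t q N (fun _ m => max 0 (wr r m - Tht s r' m)) (C' / (u : ℝ) ^ 3)
    (by positivity) (fun l m => le_max_left _ _) (fun l _ => ⟨hLv, hBle⟩) (by omega)
  have hsum : ∑ a ∈ Finset.Icc 1 (3 ^ q), Eb q i a
      = ∑ a ∈ Finset.Icc 1 (3 ^ q), AO t (fun _ m => max 0 (wr r m - Tht s r' m)) a :=
    Finset.sum_congr rfl (fun a _ => hEb a)
  rw [hsum]
  refine hmain.trans ?_
  have ht1 : (t : ℝ) + 1 ≤ u := by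
    have : t + 1 ≤ u := by omega
    exact_mod_cast this
  have hqi : (q : ℝ) + i ≤ u := by
    have : q + i ≤ u := by omega
    exact_mod_cast this
  have hqpos : (0 : ℝ) < (q : ℝ) + i := by
    have h1 : (1000 : ℝ) ≤ q := by exact_mod_cast hq
    have h2 : (0 : ℝ) ≤ (i : ℝ) := Nat.cast_nonneg i
    linarith
  calc 2 * 3 ^ q * ((t : ℝ) + 1) * (C' / (u : ℝ) ^ 3)
      ≤ 2 * 3 ^ q * (u : ℝ) * (C' / (u : ℝ) ^ 3) := by gcongr
    _ = 2 * C' * 3 ^ q * (1 / (u : ℝ) ^ 2) := by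
        field_simp
    _ ≤ 2 * C' * 3 ^ q * (1 / ((q : ℝ) + i) ^ 2) := by gcongr

/-- **Row ERB.** -/
theorem erb (hTbk : TbkStmt) (hBsm : BsmStmt) : ErbStmt := by
  obtain ⟨C1, hC1, hC⟩ := hTbk 4
  refine ⟨4 * (C1 * 10 ^ 12 + 768 * 10 ^ 24), by positivity, ?_⟩
  intro q J hq
  rw [Finset.sum_comm]
  have h1 : ∑ i ∈ Finset.range J, ∑ a ∈ Finset.Icc 1 (3 ^ q), Eb q i a ≤
      ∑ i ∈ Finset.range J,
        2 * (C1 * 10 ^ 12 + 768 * 10 ^ 24) * 3 ^ q * (1 / ((q : ℝ) + i) ^ 2) :=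
    Finset.sum_le_sum (fun i _ => erb_block hBsm C1 hC1 hC q i hq)
  rw [← Finset.mul_sum] at h1
  have h2 := erb_sum q hq J
  have h3 : 0 ≤ 2 * (C1 * 10 ^ 12 + 768 * 10 ^ 24) * 3 ^ q := by positivity
  calc _ ≤ _ := h1
    _ ≤ 2 * (C1 * 10 ^ 12 + 768 * 10 ^ 24) * 3 ^ q * (2 / (q : ℝ)) :=
        mul_le_mul_of_nonneg_left h2 h3
    _ = 4 * (C1 * 10 ^ 12 + 768 * 10 ^ 24) * 3 ^ q / (q : ℝ) := by ring

end Pool.Agent.WR2.H26
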